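import Pool.Agent.H.MP_2f0ae6_an.Main

set_option autoImplicit false

/-!
Disproof of the conjecture: there is a non-deterministic dynamically generated basic sequence `q`
such that every `q`-normal number is `q`-distribution normal, so that the difference set
`N(q) \ DN(q)` is empty (in particular it has Hausdorff dimension `0`, not `1`).
-/

namespace Pool.Agent.Results.MP_2f0ae6_an.NormalSubsetDistNormal

open Pool.Agent.H.MP_2f0ae6_an

/-- There is a dynamically generated basic sequence `q` of positive entropy for which
`N(q) \ DN(q)` is empty. -/
theorem result :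
    ∃ q : ℕ → ℕ, NonDetDynGenerated q ∧ normalSet q \ distNormalSet q = ∅ := by
  obtain ⟨q, -, h1, -, h2⟩ := main
  exact ⟨q, h1, Set.diff_eq_empty.2 h2⟩

end Pool.Agent.Results.MP_2f0ae6_an.NormalSubsetDistNormal
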